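import Pool.Agent.helper7.EP.SpecH

/-! Project ep:, module NEG. -/

set_option autoImplicit false

open Finset PowerSeries
open scoped MatrixGroups Real

noncomputable section

namespace Pool.Agent.EP

theorem NEG_rep (f : KK) (hf : f ∈ WW) :
    ∃ c : ℕ →₀ ZMod 2, c 0 = 0 ∧ f = c.sum fun i a => a • ww ^ i := by
  classical
  unfold WW at hf
  induction hf using Submodule.span_induction with
  | mem x hx =>
    obtain ⟨i, hi, rfl⟩ := hx
    refine ⟨Finsupp.single i 1, ?_, ?_⟩
    · rw [Finsupp.single_apply, if_neg (by omega)]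
    · rw [Finsupp.sum_single_index (h := fun (i : ℕ) (a : ZMod 2) => a • ww ^ i)
        (zero_smul _ (ww ^ i)), one_smul]
  | zero => exact ⟨0, rfl, by rw [Finsupp.sum_zero_index]⟩
  | add x y _ _ hx hy =>
    obtain ⟨p, hp, rfl⟩ := hx
    obtain ⟨q, hq, rfl⟩ := hy
    refine ⟨p + q, by rw [Finsupp.add_apply, hp, hq, add_zero], ?_⟩
    rw [Finsupp.sum_add_index' (h := fun (i : ℕ) (a : ZMod 2) => a • ww ^ i)
      (fun i => zero_smul _ (ww ^ i)) (fun i a b => add_smul a b (ww ^ i))]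
  | smul a x _ hx =>
    obtain ⟨p, hp, rfl⟩ := hx
    refine ⟨a • p, by rw [Finsupp.smul_apply, hp, smul_zero], ?_⟩
    rw [Finsupp.sum_smul_index' (h := fun (i : ℕ) (a : ZMod 2) => a • ww ^ i)
      (fun i => zero_smul _ (ww ^ i)), Finsupp.sum, Finsupp.sum, Finset.smul_sum]
    refine Finset.sum_congr rfl fun i _ => ?_
    rw [smul_assoc]

theorem NEG_coeff (c : ℕ → ZMod 2) (s : Finset ℕ) (M : ℤ) :
    (∑ i ∈ s, c i • ww ^ i).coeff M = ∑ i ∈ s, c i * (ww ^ i).coeff M := by
  classical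
  induction s using Finset.induction_on with
  | empty => simp
  | insert a s ha ih =>
    rw [Finset.sum_insert ha, Finset.sum_insert ha, HahnSeries.coeff_add, HahnSeries.coeff_smul,
      ih, smul_eq_mul]

theorem NEG_PP0 : PowerSeries.constantCoeff helper81.PP ≠ 0 := by
  intro h
  have h1 := congrArg (PowerSeries.constantCoeff (R := ZMod 2)) helper81.PP_mul_EE
  rw [map_mul, h, zero_mul, map_one] at h1
  exact zero_ne_one h1

/-- **NEG**. -/
theorem NEG (hWM : WM_stmt) : NEG_stmt := by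
  intro f hf hneg
  obtain ⟨c, hc0, rfl⟩ := NEG_rep f hf
  by_contra hne
  have hc : c ≠ 0 := fun h => hne (by rw [h, Finsupp.sum_zero_index])
  have hS : c.support.Nonempty := Finsupp.support_nonempty_iff.2 hc
  obtain ⟨d, hdS, hmax⟩ : ∃ d ∈ c.support, ∀ i ∈ c.support, i ≤ d :=
    ⟨c.support.max' hS, c.support.max'_mem hS, fun i hi => c.support.le_max' i hi⟩
  have hlead : c d ≠ 0 := Finsupp.mem_support_iff.1 hdS
  have hd : d ≠ 0 := by
    rintro rfl
    exact hlead hc0
  have h2 := hneg (-(d : ℤ)) (by omega)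
  rw [Finsupp.sum, NEG_coeff, Finset.sum_eq_single d] at h2
  · have h4 : (ww ^ d).coeff (-(d : ℤ)) ≠ 0 := by
      rw [hWM.1 d (-(d : ℤ)), if_pos ⟨by simp, by simp⟩]
      have h5 : ((-(d : ℤ) + d) / 24).toNat = 0 := by simp
      rw [h5, PowerSeries.coeff_zero_eq_constantCoeff_apply, map_pow]
      exact pow_ne_zero _ NEG_PP0
    exact (mul_ne_zero hlead h4) h2
  · intro i hi hid
    have hi' : i ≤ d := hmax i hi
    have hi2 : i < d := lt_of_le_of_ne hi' hid
    rw [hWM.1 i (-(d : ℤ)), if_neg (fun h => by omega), mul_zero]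
  · intro h
    exact absurd hdS h

end Pool.Agent.EP
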