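import Pool.Agent.helper99.EP.Spec

/-!
# Row FUR of project EP (MP_bf63dc_nt): large sets in the universe are not poor
-/

set_option autoImplicit false

namespace Pool.Agent.EP

open Finset Pool.Agent.helper85.FC Pool.Agent.OM Pool.Agent.helper11.TX Pool.Agent.AT

theorem FUR_prop (f g : ℕ × ℤ) (hf : 0 < f.1) (hfc : IsCoprime (f.1 : ℤ) f.2)
    (hgc : IsCoprime (g.1 : ℤ) g.2) (h : (f.1 : ℤ) * g.2 = g.1 * f.2) : f = g := by
  have h1 : (f.1 : ℤ) ∣ g.1 := by
    have : (f.1 : ℤ) ∣ (g.1 : ℤ) * f.2 := ⟨g.2, h.symm⟩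
    exact hfc.dvd_of_dvd_mul_right this
  have h2 : (g.1 : ℤ) ∣ f.1 := by
    have : (g.1 : ℤ) ∣ (f.1 : ℤ) * g.2 := ⟨f.2, h⟩
    exact hgc.dvd_of_dvd_mul_right this
  have h3 : f.1 = g.1 := Nat.dvd_antisymm (Int.natCast_dvd_natCast.1 h1) (Int.natCast_dvd_natCast.1 h2)
  have h4 : f.2 = g.2 := by
    have hz : (f.1 : ℤ) ≠ 0 := by exact_mod_cast hf.ne'
    apply mul_left_cancel₀ hz
    rw [h, ← h3]
  exact Prod.ext h3 h4

theorem FUR (hLNV : Pool.Agent.AL.LNV_stmt) : FUR_stmt := by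
  classical
  intro hFM m hm
  obtain ⟨K, hK, hmain⟩ := hFM (4 * m) (by omega)
  refine ⟨4 * m * K, Nat.mul_pos (by omega) hK, ?_⟩
  rintro Q hQ X hX hR ⟨N, hN⟩
  obtain ⟨Y, hYX, hYc⟩ := Finset.exists_subset_card_eq hR
  let e : Fin (4 * m) × Fin K → ℕ × ℤ := fun x =>
    ((Finset.equivFinOfCardEq hYc).symm (finProdFinEquiv x) : Y).1
  have heY : ∀ x, e x ∈ Y := fun x => ((Finset.equivFinOfCardEq hYc).symm (finProdFinEquiv x)).2
  have heU : ∀ x, FU Q (e x) := fun x => hX _ (hYX (heY x))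
  have hinj : ∀ x y, e x = e y → x = y := by
    intro x y hxy
    exact finProdFinEquiv.injective ((Finset.equivFinOfCardEq hYc).symm.injective (Subtype.ext hxy))
  obtain ⟨n, hn, hn2⟩ := hmain (fun x => (e x).1) (fun x => (e x).2) (fun x => (heU x).1)
    (by
      intro x y hxy heq
      exact hxy (hinj _ _ (FUR_prop _ _ (heU x).1 (heU x).2.1 (heU y).2.1 heq)))
    (by
      intro p hp
      rcases le_or_gt p Q with h | h
      · refine ⟨0, fun x => ?_⟩
        have h1 := (heU x).2.2 p hp h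
        simpa using h1
      · obtain ⟨n, hn⟩ := hLNV p Y hp (by rw [hYc]; omega) (by
          intro v hv h1 h2
          have h3 := (hX v (hYX hv)).2.1
          have h4 : (p : ℤ) ∣ (v.1 : ℤ) := Int.natCast_dvd_natCast.2 h1
          have h5 : IsUnit (p : ℤ) := h3.isUnit_of_dvd' h4 h2
          rw [Int.isUnit_iff] at h5
          have := hp.two_le
          omega)
        exact ⟨n, fun x => hn _ (heY x)⟩) N
  have h1 := hN n hn
  have h2 : #{j : Fin (4 * m) | ∃ x : Fin K, (((e (j, x)).1 : ℤ) * n + (e (j, x)).2).toNat.Prime} ≤ cp X n := by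
    let f : Fin (4 * m) → ℕ × ℤ := fun j =>
      if hx : ∃ x : Fin K, (((e (j, x)).1 : ℤ) * n + (e (j, x)).2).toNat.Prime then e (j, hx.choose)
      else (0, 0)
    have hf : ∀ j, (∃ x : Fin K, (((e (j, x)).1 : ℤ) * n + (e (j, x)).2).toNat.Prime) →
        ∃ x, f j = e (j, x) ∧ (((e (j, x)).1 : ℤ) * n + (e (j, x)).2).toNat.Prime := by
      intro j hj
      refine ⟨hj.choose, ?_, hj.choose_spec⟩
      simp only [f, dif_pos hj]
    refine Finset.card_le_card_of_injOn f ?_ ?_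
    · intro j hj
      have hj := (Finset.mem_filter.1 hj).2
      obtain ⟨x, h3, h4⟩ := hf j hj
      rw [h3]
      exact Finset.mem_filter.2 ⟨hYX (heY _), h4⟩
    · intro j hj j' hj' hjj
      have hj := (Finset.mem_filter.1 hj).2
      have hj' := (Finset.mem_filter.1 hj').2
      obtain ⟨x, h3, -⟩ := hf j hj
      obtain ⟨x', h3', -⟩ := hf j' hj'
      rw [h3, h3'] at hjj
      exact congrArg Prod.fst (hinj _ _ hjj)
  have h3 : (#{j : Fin (4 * m) | ∃ x : Fin K, (((e (j, x)).1 : ℤ) * n + (e (j, x)).2).toNat.Prime} : ℝ) ≤ m := by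
    exact_mod_cast h2.trans h1
  have h4 : (m : ℝ) ≤ (1 / 4 + 1 / 500000 : ℝ) * ((4 * m : ℕ) : ℝ) := by
    push_cast
    have : (0 : ℝ) ≤ m := Nat.cast_nonneg m
    nlinarith
  exact absurd (h4.trans_lt (hn2.trans_le h3)) (lt_irrefl _)

end Pool.Agent.EP
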